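import Pool.Agent.TH188.WQ.Defs
import Pool.Agent.W177.WD.PCut

/-!
# Restriction of a model to the divisor of `F`, relative version
(adapted from `Pool/Agent/W177/WD/PCut.lean` and `Pool/Agent/W369/WT/PCut.lean`)
-/

set_option autoImplicit false
set_option linter.unusedVariables false
set_option linter.unusedSectionVars false

universe u

open Polynomial

namespace Pool.Agent.TH153.WQ.PCut

open Pool.Agent.W558 Pool.Agent.W973.CUT Pool.Agent.W973.CUT2 Pool.Agent.W177.WD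
open Pool.Agent.TH188.WQ

/-- The exponents `c` in terms of `n0`. -/
lemma sumc {κ : Type u} [Field κ] {I I0 : Type} [Fintype I] [Fintype I0] (p : ℕ)
    (hp : (p : κ) = 0) (c μ : I → ℤ) (n0 : I0 → ℤ) (Θ : I → I0 → ℤ)
    (ce : ∀ i, c i + p * μ i = ∑ i0, Θ i i0 * n0 i0) (e : I → κ) :
    ∑ i, (c i : κ) * e i = ∑ i0, (n0 i0 : κ) * ∑ i, (Θ i i0 : κ) * e i := by
  have h1 : ∀ i, (c i : κ) = ∑ i0, (Θ i i0 : κ) * (n0 i0 : κ) := by
    intro i
    have h2 : (((c i + p * μ i : ℤ)) : κ) = ((∑ i0, Θ i i0 * n0 i0 : ℤ) : κ) := by rw [ce i]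
    push_cast at h2
    rw [hp, zero_mul, add_zero] at h2
    exact h2
  simp only [h1, Finset.sum_mul, Finset.mul_sum]
  rw [Finset.sum_comm]
  refine Finset.sum_congr rfl fun i0 _ => Finset.sum_congr rfl fun i _ => ?_
  ring

/-- Forget the component `y`. -/
def drp {k N : Type u} [Field k] [Field N] [Algebra k N] {A : Subalgebra k N} {κ : Type u}
    [Field κ] [Algebra k κ] {φ : A →ₐ[k] κ} {I : Type} {y : N}
    {x : I → N} (v : LT φ (ox y x)) : LT φ x where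
  D := v.D
  e := fun i => v.e (some i)
  hx := fun i h => v.hx (some i) h

section chart

variable {k N : Type u} [Field k] [Field N] [Algebra k N] {T I : Type} [Fintype I]

/-- The local equation of the divisor. -/
lemma chart2 (p : ℕ) [CharP k p] (M : LM (⊥ : Subalgebra k N) ⊤ T I) (F : N) (Q : Subalgebra k N)
    (y h : T → N) (c μ : I → ℤ) (hPS : PS p M F Q y h c μ) (hF : Fin2 M y c) (t : T) :
    ∃ f ∈ M.A t, ∃ u, u ≠ 0 ∧ u ∈ Q ∧ u⁻¹ ∈ Q ∧ F = u * f ∧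
      ∀ (κ : Type u) [Field κ] [Algebra k κ] (φ : M.A t →ₐ[k] κ) (hf : f ∈ M.A t),
        φ ⟨f, hf⟩ = 0 → ∃ s : κ, s ≠ 0 ∧ ∀ v : LT φ (ox (y t) (M.x t)),
          v.D.D ⟨f, hf⟩ = s * om v (fun o => o.elim 0 c) (hPS.hA t) := by
  have hx0 := M.x0 t
  have hy0 := hPS.y0 t
  have hxQ : ∀ i, M.x t i ∈ Q := fun i => hPS.AQ t (M.xA t i)
  have hyQ : y t ∈ Q := hPS.AQ t (hPS.yA t)
  have hz : ∀ (n : ℤ) i, M.x t i ^ n ∈ Q := fun n i =>
    zpow_mem_of (hxQ i) (Or.inr (hPS.xQ t i))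
  have hP0 : ∀ m : I → ℤ, ∏ i, M.x t i ^ m i ≠ 0 := fun m =>
    Finset.prod_ne_zero_iff.2 fun i _ => zpow_ne_zero _ (hx0 i)
  have hPQ : ∀ m : I → ℤ, ∏ i, M.x t i ^ m i ∈ Q := fun m => Q.prod_mem fun i _ => hz _ i
  have hPQ' : ∀ m : I → ℤ, (∏ i, M.x t i ^ m i)⁻¹ ∈ Q := fun m => by
    rw [← Finset.prod_inv_distrib]
    refine Q.prod_mem fun i _ => ?_
    rw [← zpow_neg]
    exact hz _ i
  have hneg : ∀ m : I → ℤ, ∏ i, M.x t i ^ (-m i) = (∏ i, M.x t i ^ m i)⁻¹ := fun m => by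
    rw [← Finset.prod_inv_distrib]
    exact Finset.prod_congr rfl fun i _ => zpow_neg _ _
  rcases hF t with h1 | ⟨h1, h2⟩
  · -- first case
    have hXA : (∏ i, M.x t i ^ (-c i)) * y t ^ p ∈ M.A t := by
      refine (M.A t).mul_mem ((M.A t).prod_mem fun i _ => ?_) ((M.A t).pow_mem (hPS.yA t) p)
      refine zpow_mem_of (M.xA t i) ?_
      rcases h1 i with h | h
      · left; omega
      · exact Or.inr h
    refine ⟨(∏ i, M.x t i ^ (-c i)) * y t ^ p - h t, (M.A t).sub_mem hXA (hPS.hA t),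
      (∏ i, M.x t i ^ ((p : ℤ) * μ i)) * ∏ i, M.x t i ^ c i,
      mul_ne_zero (hP0 _) (hP0 _), Q.mul_mem (hPQ _) (hPQ _), ?_, ?_, ?_⟩
    · rw [mul_inv]
      exact Q.mul_mem (hPQ' _) (hPQ' _)
    · rw [hneg]
      have := hP0 c
      conv_lhs => rw [hPS.eq t]
      rw [mul_assoc]
      congr 1
      rw [mul_sub, ← mul_assoc, mul_inv_cancel₀ this, one_mul]
    · intro κ _ _ φ hf hφ
      refine ⟨-1, neg_ne_zero.2 one_ne_zero, fun v => ?_⟩
      have hLx : ∀ i, LG v.D (M.x t i) (v.e (some i)) := fun i =>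
        ⟨M.xA t i, v.hx (some i) (M.xA t i)⟩
      have hLy : LG v.D (y t) (v.e none) := ⟨hPS.yA t, v.hx none (hPS.yA t)⟩
      have hX : LG v.D ((∏ i, M.x t i ^ (-c i)) * y t ^ p)
          (∑ i, ((-c i : ℤ) : κ) * v.e (some i) + (p : κ) * v.e none) := by
        refine LG.mul (LG.prod _ _ _ fun i _ => (hLx i).zpow (hx0 i) _ ?_) (hLy.pow p)
        rcases h1 i with h | h
        · left; omega
        · exact Or.inr h
      rw [cast_zero (k := k) p κ, zero_mul, add_zero] at hX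
      have e1 : (⟨_, hf⟩ : M.A t) = ⟨_, hXA⟩ - ⟨h t, hPS.hA t⟩ := rfl
      have e2 : φ ⟨_, hXA⟩ = φ ⟨h t, hPS.hA t⟩ := by
        rw [e1, map_sub, sub_eq_zero] at hφ
        exact hφ
      rw [e1, map_sub, hX.eq hXA, e2, om, Fintype.sum_option]
      simp only [Option.elim_none, Option.elim_some, Int.cast_zero, zero_mul, zero_add,
        Int.cast_neg, neg_mul, Finset.sum_neg_distrib]
      ring
  · -- second case
    have hcA : ∀ i, M.x t i ^ c i ∈ M.A t := fun i => zpow_mem_of (M.xA t i) (h1 i)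
    have hXA : (∏ i, M.x t i ^ (c i)) * (y t)⁻¹ ^ p ∈ M.A t :=
      (M.A t).mul_mem ((M.A t).prod_mem fun i _ => hcA i) ((M.A t).pow_mem h2 p)
    have hXhA : (∏ i, M.x t i ^ (c i)) * (y t)⁻¹ ^ p * h t ∈ M.A t :=
      (M.A t).mul_mem hXA (hPS.hA t)
    refine ⟨1 - (∏ i, M.x t i ^ (c i)) * (y t)⁻¹ ^ p * h t,
      (M.A t).sub_mem (M.A t).one_mem hXhA,
      (∏ i, M.x t i ^ ((p : ℤ) * μ i)) * y t ^ p,
      mul_ne_zero (hP0 _) (pow_ne_zero _ hy0), Q.mul_mem (hPQ _) (Q.pow_mem hyQ p), ?_, ?_, ?_⟩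
    · rw [mul_inv, ← inv_pow]
      exact Q.mul_mem (hPQ' _) (Q.pow_mem (hPS.yQ t) p)
    · conv_lhs => rw [hPS.eq t]
      have := pow_ne_zero p hy0
      rw [mul_assoc]
      congr 1
      rw [inv_pow]
      field_simp
    · intro κ _ _ φ hf hφ
      have e1 : (⟨_, hf⟩ : M.A t) = 1 - ⟨_, hXA⟩ * ⟨h t, hPS.hA t⟩ := rfl
      have e2 : φ ⟨_, hXA⟩ * φ ⟨h t, hPS.hA t⟩ = 1 := by
        rw [e1, map_sub, map_one, map_mul, sub_eq_zero] at hφ
        exact hφ.symm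
      refine ⟨-φ ⟨_, hXA⟩, neg_ne_zero.2 (left_ne_zero_of_mul_eq_one e2), fun v => ?_⟩
      have hLx : ∀ i, LG v.D (M.x t i) (v.e (some i)) := fun i =>
        ⟨M.xA t i, v.hx (some i) (M.xA t i)⟩
      have hLy : LG v.D (y t) (v.e none) := ⟨hPS.yA t, v.hx none (hPS.yA t)⟩
      have hX : LG v.D ((∏ i, M.x t i ^ (c i)) * (y t)⁻¹ ^ p)
          (∑ i, ((c i : ℤ) : κ) * v.e (some i) + (p : κ) * -v.e none) := by
        exact LG.mul (LG.prod _ _ _ fun i _ => (hLx i).zpow (hx0 i) _ (h1 i))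
          ((hLy.inv hy0 h2).pow p)
      rw [cast_zero (k := k) p κ, zero_mul, add_zero] at hX
      rw [e1, map_sub, v.D.D_one, v.D.leib, hX.eq hXA, om, Fintype.sum_option]
      simp only [Option.elim_none, Option.elim_some, Int.cast_zero, zero_mul, zero_add]
      ring

end chart

section lift

variable {k L N K : Type u} [Field k] [Field L] [Field N] [Field K] [Algebra k L] [Algebra k N]
  [Algebra L N] [IsScalarTower k L N] [Algebra k K] [Algebra L K] [IsScalarTower k L K]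
  {T0 I0 T I : Type} [Fintype I0] [Fintype I] {Q : Subalgebra k N}

/-- The lift of logarithmic tangent vectors, on a chart. -/
lemma lift_chart (p : ℕ) [Fact p.Prime] [CharP k p] (B : LM (⊥ : Subalgebra k L) ⊤ T0 I0)
    (M : LM (⊥ : Subalgebra k N) ⊤ T I) (y : T → N) (π0 : T → T0)
    (Θ : I → I0 → ℤ) (h0 : T0 → L) (n0 : I0 → ℤ) (c μ : I → ℤ)
    (hA0 : ∀ t0, h0 t0 ∈ B.A t0) (hAQ : ∀ t, M.A t ≤ Q)
    (hA : ∀ t, algebraMap L N (h0 (π0 t)) ∈ M.A t)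
    (hL : LfP B M y π0 Θ) (hce : ∀ i, c i + p * μ i = ∑ i0, Θ i i0 * n0 i0) (π : Q →ₐ[k] K)
    (hcomp : ∀ l, algebraMap L N l ∈ Q → pq π (algebraMap L N l) = algebraMap L K l)
    (t : T) (f : N) (hfA : f ∈ M.A t) (hf0 : f ≠ 0) (hfπ : pq π f = 0)
    (hker : LK π (M.A t) f)
    (hv2 : ∀ (κ : Type u) [Field κ] [Algebra k κ] (φ : M.A t →ₐ[k] κ),
        φ ⟨f, hfA⟩ = 0 → ∀ v : LT φ (ox (y t) (M.x t)),
          om v (fun o => o.elim 0 c) (hA t) = 0 → v.D.D ⟨f, hfA⟩ = 0)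
    (A' : Subalgebra k K) (x' : I → K) (hA' : A' = im π (M.A t) (hAQ t))
    (hx' : x' = fun i => pq π (M.x t i))
    (le' : ∀ a ∈ B.A (π0 t), algebraMap L K a ∈ A')
    (κ : Type u) [Field κ] [Algebra k κ] (φ' : A' →ₐ[k] κ)
    (v0 : LT (φ'.comp (ci le')) (B.x (π0 t)))
    (hv0 : om v0 n0 (hA0 (π0 t)) = 0) :
    ∃ v' : LT φ' x',
      (∀ a (ha : a ∈ B.A (π0 t)), v'.D.D ⟨algebraMap L K a, le' a ha⟩ = v0.D.D ⟨a, ha⟩) ∧
      ∀ i, ∑ i', (Θ i' i : κ) * v'.e i' = v0.e i := by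
  subst hA' hx'
  have hp0 : (p : κ) = 0 := Pool.Agent.W177.WD.cast_zero (k := k) p κ
  let φ : M.A t →ₐ[k] κ := φ'.comp (qm π (M.A t) (hAQ t))
  have hφ : ∀ a (ha : a ∈ M.A t), φ ⟨a, ha⟩ = φ' ⟨pq π a, pq_mem π (hAQ t) ha⟩ := by
    intro a ha
    change φ' (qm π (M.A t) (hAQ t) ⟨a, ha⟩) = _
    rw [qm_apply π (hAQ t) ha]
  have hφL : ∀ a (ha : a ∈ B.A (π0 t)), φ ⟨algebraMap L N a, hL.ov.le t a ha⟩ =
      φ' ⟨algebraMap L K a, le' a ha⟩ := by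
    intro a ha
    rw [hφ]
    exact congrArg φ' (Subtype.ext (hcomp a (hAQ t (hL.ov.le t a ha))))
  let w0 : LT (φ.comp (ci (hL.ov.le t))) (B.x (π0 t)) :=
    ⟨v0.D.cast (fun a => (hφL a a.2).symm), v0.e, fun i hi => by
      refine (v0.hx i hi).trans ?_
      congr 1
      exact (hφL _ hi).symm⟩
  obtain ⟨v, hv1, hvΘ⟩ := hL.lf t κ φ w0
  have hfφ : φ ⟨f, hfA⟩ = 0 := by
    rw [hφ]
    have : (⟨pq π f, pq_mem π (hAQ t) hfA⟩ : im π (M.A t) (hAQ t)) = 0 := Subtype.ext hfπ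
    rw [this, map_zero]
  have hom : om v (fun o => o.elim 0 c) (hA t) = om v0 n0 (hA0 (π0 t)) := by
    have e1 : v.D.D ⟨algebraMap L N (h0 (π0 t)), hA t⟩ = v0.D.D ⟨h0 (π0 t), hA0 (π0 t)⟩ :=
      hv1 _ (hA0 (π0 t))
    have e2 : φ ⟨algebraMap L N (h0 (π0 t)), hA t⟩ =
        (φ'.comp (ci le')) ⟨h0 (π0 t), hA0 (π0 t)⟩ := hφL _ (hA0 (π0 t))
    rw [om, om, Fintype.sum_option]
    simp only [Option.elim_none, Option.elim_some, Int.cast_zero, zero_mul, zero_add]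
    rw [sumc p hp0 c μ n0 Θ hce, e1, e2]
    congr 2
    exact Finset.sum_congr rfl fun i0 _ => by rw [hvΘ i0]
  have h := hv2 κ φ hfφ v (hom.trans hv0)
  obtain ⟨E, hE⟩ := desc2 π (hAQ t) hfA hf0 hfπ hker φ' v.D h
  refine ⟨⟨E, fun i => v.e (some i), ?_⟩, ?_, hvΘ⟩
  · intro i hi
    refine (hE _ (M.xA t i)).trans ?_
    have e1 : v.D.D ⟨M.x t i, M.xA t i⟩ = φ ⟨M.x t i, M.xA t i⟩ * v.e (some i) :=
      v.hx (some i) (M.xA t i)
    rw [e1]
    congr 1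
    exact hφ _ _
  · intro a ha
    have e : (⟨algebraMap L K a, le' a ha⟩ : im π (M.A t) (hAQ t)) =
        ⟨pq π (algebraMap L N a), pq_mem π (hAQ t) (hL.ov.le t a ha)⟩ :=
      Subtype.ext (hcomp a (hAQ t (hL.ov.le t a ha))).symm
    change E.D ⟨algebraMap L K a, le' a ha⟩ = _
    rw [e, hE _ (hL.ov.le t a ha)]
    exact hv1 a ha

end lift

theorem main : Pool.Agent.TH188.WQ.WQ_pcut.{u} := by
  intro p _ k L N K _ _ _ _ _ _ _ _ _ _ _ _ _ T0 I0 T I G _ _ _ B n0 h0 hA0 M F Q y c μ g Γ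
    π0 Θ hPS hLq hFn hF2 hLf hce hFQ hF0 π hπ hsurj hQ hcomp0
  classical
  have hloc : S2_loc.{u} := loc_main
  have hT := nonempty_T M
  have hcomp : ∀ l, algebraMap L N l ∈ Q → pq π (algebraMap L N l) = algebraMap L K l := by
    intro l hl
    rw [pq_of π hl]
    exact hcomp0 l hl
  have hAQ := hPS.AQ
  choose f hfA u hu0 huQ huQ' hFu hs using chart2 p M F Q y _ c μ hPS hF2
  have hv : ∀ t (κ : Type u) [Field κ] [Algebra k κ] (φ : M.A t →ₐ[k] κ) (hf : f t ∈ M.A t),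
      φ ⟨f t, hf⟩ = 0 → ∃ D : TV φ, D.D ⟨f t, hf⟩ ≠ 0 ∧
        ∀ i, φ ⟨M.x t i, M.xA t i⟩ = 0 → D.D ⟨M.x t i, M.xA t i⟩ = 0 := by
    intro t κ _ _ φ hf hφ
    obtain ⟨s, hs0, hs1⟩ := hs t κ φ hf hφ
    obtain ⟨v, hv⟩ := hPS.ln t κ φ
    refine ⟨v.D, ?_, fun i hi => ?_⟩
    · rw [hs1 v]
      exact mul_ne_zero hs0 hv
    · have := v.hx (some i) (M.xA t i)
      change v.D.D ⟨M.x t i, M.xA t i⟩ = φ ⟨M.x t i, M.xA t i⟩ * _ at this
      rw [this, hi, zero_mul]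
  have hf0 : ∀ t, f t ≠ 0 := by
    intro t h0
    apply hF0
    rw [hFu t, h0, mul_zero]
  have hFπ : pq π F = 0 := by
    rw [pq_of π hFQ, hπ]
    exact ⟨1, Q.one_mem, (mul_one F).symm⟩
  have hfπ : ∀ t, pq π (f t) = 0 := by
    intro t
    have h1 : f t = (u t)⁻¹ * F := by
      rw [hFu t, ← mul_assoc, inv_mul_cancel₀ (hu0 t), one_mul]
    rw [h1, pq_mul π (huQ' t) hFQ, hFπ, mul_zero]
  have hker0 : ∀ a ∈ Q, pq π a = 0 → ∃ r ∈ Q, a = F * r := by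
    intro a ha h0
    rw [pq_of π ha, hπ] at h0
    exact h0
  have hmin : ∀ t, RingHom.ker (qm π (M.A t) (hAQ t)) ∈
      (Ideal.span {(⟨f t, hfA t⟩ : M.A t)}).minimalPrimes := by
    intro t
    refine ⟨⟨RingHom.ker_isPrime _, ?_⟩, ?_⟩
    · rw [Ideal.span_singleton_le_iff_mem, RingHom.mem_ker, qm_apply π (hAQ t) (hfA t)]
      exact Subtype.ext (hfπ t)
    · rintro P'' ⟨hp'', hle''⟩ hPle ⟨a, ha⟩ haker
      have ha0 : pq π a = 0 := by
        rw [RingHom.mem_ker, qm_apply π (hAQ t) ha] at haker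
        exact congrArg Subtype.val haker
      obtain ⟨r, hr, har⟩ := hker0 a (hAQ t ha) ha0
      obtain ⟨α, hα, β, hβ, hβ0, hβQ, hαβ⟩ := hLq t (u t * r) (Q.mul_mem (huQ t) hr)
      have h3 : (⟨β, hβ⟩ : M.A t) * ⟨a, ha⟩ = ⟨f t, hfA t⟩ * ⟨α, hα⟩ := by
        apply Subtype.ext
        change β * a = f t * α
        rw [har, ← hαβ, hFu t]
        ring
      have h4 : (⟨β, hβ⟩ : M.A t) * ⟨a, ha⟩ ∈ P'' := by
        rw [h3]
        exact P''.mul_mem_right _ (hle'' (Ideal.mem_span_singleton_self _))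
      rcases hp''.mem_or_mem h4 with h5 | h5
      · exfalso
        have h6 := hPle h5
        rw [RingHom.mem_ker, qm_apply π (hAQ t) hβ] at h6
        exact pq_ne π hβ0 (hAQ t hβ) hβQ (congrArg Subtype.val h6)
      · exact h5
  have hv0 : ∀ t (κ : Type u) [Field κ] [Algebra k κ] (φ : M.A t →ₐ[k] κ),
      φ ⟨f t, hfA t⟩ = 0 → ∃ D : TV φ, D.D ⟨f t, hfA t⟩ ≠ 0 := by
    intro t κ _ _ φ hφ
    obtain ⟨δ, h1, -⟩ := hv t κ φ (hfA t) hφ
    exact ⟨δ, h1⟩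
  have hker : ∀ t, LK π (M.A t) (f t) := by
    intro t m' hm' hPm'
    have hsm := M.sm t
    have hsq : Algebra.Smooth k (M.A t ⧸ Ideal.span {(⟨f t, hfA t⟩ : M.A t)}) :=
      smooth_quot _ (hv0 t)
    obtain ⟨e, he, h1⟩ := local_ker hloc (k := k) (⟨f t, hfA t⟩ : M.A t)
      (RingHom.ker (qm π (M.A t) (hAQ t))) m' (hmin t) hm' (by
        rintro ⟨a, ha⟩ haker
        rw [RingHom.mem_ker, qm_apply π (hAQ t) ha] at haker
        exact hPm' a ha (congrArg Subtype.val haker))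
    refine ⟨e, he, fun a ha h0 => ?_⟩
    obtain ⟨b', hb'⟩ := h1 ⟨a, ha⟩ (by
      rw [RingHom.mem_ker, qm_apply π (hAQ t) ha]
      exact Subtype.ext h0)
    have h2 : (e : N) * a = f t * b' := congrArg Subtype.val hb'
    rw [h2, mul_div_cancel_left₀ _ (hf0 t)]
    exact b'.2
  have hsm' : ∀ t, Algebra.Smooth k (im π (M.A t) (hAQ t)) := by
    intro t
    have := M.sm t
    exact smooth_im2 π hloc (hAQ t) (hfA t) (hfπ t) (hmin t) (hv0 t)
  have hK' : ∀ x : N, (∃ a b : Q, π b ≠ 0 ∧ x * b = a) ∨ (∃ a b : Q, π b ≠ 0 ∧ x⁻¹ * b = a) := by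
    intro x
    rcases hQ x with h1 | h1
    · left
      exact ⟨⟨x, h1⟩, 1, by rw [map_one]; exact one_ne_zero, by simp⟩
    · right
      exact ⟨⟨x⁻¹, h1⟩, 1, by rw [map_one]; exact one_ne_zero, by simp⟩
  obtain ⟨M', hA', hx'⟩ := exists_model2 π hK' M hAQ hPS.xQ f hfA hf0 hfπ hker hsm'
    (fun t => snc_option M t (f t) (hfA t) (hv t))
  have hA't : ∀ t, M'.A t = im π (M.A t) (hAQ t) := fun t => congrFun hA' t
  have hx't : ∀ t, M'.x t = fun i => pq π (M.x t i) := fun t => congrFun hx' t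
  have hgQ : ∀ b, algebraMap L N (g b) ∈ Q := by
    intro b
    obtain ⟨t⟩ := hT
    obtain ⟨w, h0, h1, h2, h3⟩ := hFn b t
    change algebraMap L N (g b) = _ at h3
    rw [h3]
    exact Q.mul_mem (hAQ t h1) (Q.prod_mem fun i _ =>
      zpow_mem_of (hAQ t (M.xA t i)) (Or.inr (hPS.xQ t i)))
  have ho : Ovr B M' π0 Θ := by
    refine ⟨?_, ?_, hLf.ov.Θ0⟩
    · intro t a ha
      have h1 := hLf.ov.le t a ha
      rw [hA't, ← hcomp a (hAQ t h1)]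
      exact pq_mem π (hAQ t) h1
    · intro t i0
      have h1 := hLf.ov.le t _ (B.xA (π0 t) i0)
      rw [← hcomp _ (hAQ t h1), hLf.ov.x t i0, hx't]
      have h4 : ∀ i, M.x t i ^ Θ i i0 ∈ Q := fun i =>
        zpow_mem_of (hAQ t (M.xA t i)) (Or.inr (hPS.xQ t i))
      rw [pq_prod π _ _ fun i _ => h4 i]
      refine Finset.prod_congr rfl fun i _ => ?_
      exact pq_zpow π (M.x0 t i) (hAQ t (M.xA t i)) (hPS.xQ t i) _
  refine ⟨T, I, inferInstance, inferInstance, M', π0, Θ, ho, Γ, ?_, ?_, ?_⟩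
  · intro t κ _ _ φ' v0 hpole
    refine lift_chart p B M y π0 Θ h0 n0 c μ hA0 hAQ hPS.hA hLf hce π hcomp t (f t) (hfA t) (hf0 t)
      (hfπ t) (hker t) (fun κ _ _ φ hφ v h1 => ?_) (M'.A t) (M'.x t)
      (hA't t) (hx't t) (ho.le t) κ φ' v0 hpole
    obtain ⟨s, -, hs1⟩ := hs t κ φ (hfA t) hφ
    rw [hs1 v, h1, mul_zero]
  · intro a t
    obtain ⟨w, h0, h1, h2, h3⟩ := hFn a t
    change algebraMap L N (g a) = _ at h3
    rw [hA', hx']
    refine ⟨pq π w, pq_ne π h0 (hAQ t h1) (hAQ t h2), pq_mem π (hAQ t) h1, ?_, ?_⟩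
    · rw [← pq_inv π h0 (hAQ t h1) (hAQ t h2)]
      exact pq_mem π (hAQ t) h2
    · have h4 : ∀ i, M.x t i ^ Γ a i ∈ Q := fun i =>
        zpow_mem_of (hAQ t (M.xA t i)) (Or.inr (hPS.xQ t i))
      change algebraMap L K (g a) = _
      rw [← hcomp _ (hgQ a), h3, pq_mul π (hAQ t h1) (Q.prod_mem fun i _ => h4 i),
        pq_prod π _ _ fun i _ => h4 i]
      congr 1
      refine Finset.prod_congr rfl fun i _ => ?_
      exact pq_zpow π (M.x0 t i) (hAQ t (M.xA t i)) (hPS.xQ t i) _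
  · intro t x
    obtain ⟨q, rfl⟩ := hsurj x
    obtain ⟨α, hα, β, hβ, hβ0, hβQ, hαβ⟩ := hLq t q q.2
    rw [hA']
    have h1 : pq π β ≠ 0 := pq_ne π hβ0 (hAQ t hβ) hβQ
    refine ⟨pq π α, pq_mem π (hAQ t) hα, pq π β, pq_mem π (hAQ t) hβ, h1, ?_⟩
    rw [eq_mul_inv_iff_mul_eq₀ h1, ← pq_coe π q, ← pq_mul π q.2 (hAQ t hβ), hαβ]

end Pool.Agent.TH153.WQ.PCut

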